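import Mathlib
import Pool.Agent.Lead.MinDec3

namespace Pool.Agent.Results.MP_a2f955_an.Measurable
open MeasureTheory Set Filter Topology ComplexConjugate Pool.Agent.Lead.MinDec
open scoped ComplexOrder

/-- the interval `(-A, A)`, `0 < A ≤ ∞`. -/
def Dom (A : EReal) : Set ℝ := {x : ℝ | -A < (x : EReal) ∧ (x : EReal) < A}

/-- `p ∈ AP_A`: a finitely supported coefficient family `λ ↦ c_λ` with exponents in `(-A, A)`. -/
def IsAP (A : EReal) (p : ℝ →₀ ℂ) : Prop := ∀ l ∈ p.support, l ∈ Dom A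

/-- the value `p(t) = Σ c_λ e^{iλt}`. -/
noncomputable def ev (p : ℝ →₀ ℂ) (t : ℝ) : ℂ :=
  p.sum fun l c => c * Complex.exp (Complex.I * l * t)

/-- the functional `Φ_f(p) = Σ c_λ f(λ)`. -/
noncomputable def Phi (f : ℝ → ℂ) (p : ℝ →₀ ℂ) : ℂ := p.sum fun l c => c * f l

/-- the values `|Φ_f(p)|` on the unit ball of `AP_A` for the sup norm. -/
def vals (A : EReal) (f : ℝ → ℂ) : Set ℝ :=
  {r | ∃ p, IsAP A p ∧ (∀ t, ‖ev p t‖ ≤ 1) ∧ r = ‖Phi f p‖}

/-- `f ∈ R_A`: the functional `Φ_f` is bounded. -/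
def InR (A : EReal) (f : ℝ → ℂ) : Prop := BddAbove (vals A f)

/-- `‖f‖_A = ‖Φ_f‖`. -/
noncomputable def normA (A : EReal) (f : ℝ → ℂ) : ℝ := sSup (vals A f)

/-- `f ∈ P_A` (for a complex number `0 ≤ z` means: `z` is real and nonnegative). -/
def InP (A : EReal) (f : ℝ → ℂ) : Prop :=
  InR A f ∧ ∀ p, IsAP A p → (∀ t, 0 ≤ ev p t) → 0 ≤ Phi f p

def Hermitian (A : EReal) (f : ℝ → ℂ) : Prop := ∀ l ∈ Dom A, f (-l) = conj (f l)

/-- Lebesgue measurability on `(-A, A)`. -/
def Meas (A : EReal) (f : ℝ → ℂ) : Prop := AEMeasurable f (volume.restrict (Dom A))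

noncomputable def E (l t : ℝ) : ℂ := Complex.exp (Complex.I * l * t)

lemma E_add (a b t : ℝ) : E (a + b) t = E a t * E b t := by
  simp only [E, ← Complex.exp_add]; congr 1; push_cast; ring

lemma E_neg (a t : ℝ) : E (-a) t = conj (E a t) := by
  simp only [E, ← Complex.exp_conj]; congr 1; simp

lemma E_zero (t : ℝ) : E 0 t = 1 := by simp [E]

lemma E_norm (a t : ℝ) : ‖E a t‖ = 1 := by
  have : Complex.I * a * t = ((a * t : ℝ) : ℂ) * Complex.I := by push_cast; ring
  rw [E, this, Complex.norm_exp_ofReal_mul_I]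

lemma dom_open (A : EReal) : IsOpen (Dom A) :=
  (isOpen_Ioo (a := -A) (b := A)).preimage continuous_coe_real_ereal

lemma dom_neg {A : EReal} {x : ℝ} (hx : x ∈ Dom A) : -x ∈ Dom A := by
  refine ⟨?_, ?_⟩
  · rw [EReal.coe_neg]; exact EReal.neg_lt_neg_iff.2 hx.2
  · rw [EReal.coe_neg]; exact EReal.neg_lt_comm.1 hx.1

lemma dom_zero {A : EReal} (hA : 0 < A) : (0 : ℝ) ∈ Dom A := by
  refine ⟨?_, by simpa using hA⟩
  simpa using EReal.neg_lt_neg_iff.2 hA

lemma sum_fam {ι : Type} [Fintype ι] (c : ι → ℂ) (l : ι → ℝ) (F : ℝ → ℂ) :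
    (∑ i, Finsupp.single (l i) (c i)).sum (fun a b => b * F a) = ∑ i, c i * F (l i) := by
  have : ∀ p : ℝ →₀ ℂ, p.sum (fun a b => b * F a) = Finsupp.linearCombination ℂ F p := by
    intro p; rw [Finsupp.linearCombination_apply]; rfl
  rw [this, map_sum]
  simp

/-- positivity in family form -/
def PF (D : Set ℝ) (F : ℝ → ℂ) : Prop :=
  ∀ (ι : Type) [Fintype ι] (c : ι → ℂ) (l : ι → ℝ), (∀ i, l i ∈ D) →
    (∀ t, 0 ≤ ∑ i, c i * E (l i) t) → 0 ≤ ∑ i, c i * F (l i)

lemma pf_of {A : EReal} {F : ℝ → ℂ} (h : InP A F) : PF (Dom A) F := by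
  intro ι _ c l hl hp
  classical
  have := h.2 (∑ i, Finsupp.single (l i) (c i)) (by
    intro a ha
    obtain ⟨i, -, hi⟩ := Finsupp.mem_support_finsetSum a ha
    have := Finsupp.support_single_subset hi
    rw [Finset.mem_singleton] at this
    rw [this]; exact hl i) (by
    intro t
    have := sum_fam c l (fun a => E a t)
    simp only [E] at this hp
    rw [ev, this]; exact hp t)
  rwa [Phi, sum_fam] at this

lemma L1 {D : Set ℝ} {F : ℝ → ℂ} (hF : PF D F) {ι : Type} [Fintype ι] (c : ι → ℂ) (l : ι → ℝ)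
    (x : ℝ) (h0 : ∀ i, l i ∈ D) (h1 : ∀ i, l i + x ∈ D) (h2 : ∀ i, l i + -x ∈ D)
    (hp : ∀ t, 0 ≤ ∑ i, c i * E (l i) t) :
    ‖∑ i, c i * F (l i + x)‖ ≤ (∑ i, c i * F (l i)).re ∧
      ∑ i, c i * F (l i + -x) = conj (∑ i, c i * F (l i + x)) := by
  set X := ∑ i, c i * F (l i + x)
  set Y := ∑ i, c i * F (l i + -x)
  set Z := ∑ i, c i * F (l i)
  have hZ : 0 ≤ Z := hF ι c l h0 hp
  have key : ∀ θ : ℂ, ‖θ‖ = 1 → 0 ≤ Z - θ / 2 * X - conj θ / 2 * Y := by
    intro θ hθ
    have := hF (ι ⊕ ι ⊕ ι) (Sum.elim c (Sum.elim (fun i => -(θ / 2) * c i) (fun i => -(conj θ / 2) * c i)))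
      (Sum.elim l (Sum.elim (fun i => l i + x) (fun i => l i + -x)))
      (by rintro (i | i | i) <;> simp [h0, h1, h2]) (by
        intro t
        simp only [Fintype.sum_sum_type, Sum.elim_inl, Sum.elim_inr, E_add, E_neg]
        have e : ∑ i, c i * E (l i) t + (∑ i, -(θ / 2) * c i * (E (l i) t * E x t) +
            ∑ i, -(conj θ / 2) * c i * (E (l i) t * conj (E x t)))
            = (∑ i, c i * E (l i) t) * ((1 - (θ * E x t).re : ℝ) : ℂ) := by
          push_cast
          rw [Complex.re_eq_add_conj, map_mul, Finset.sum_mul, ← Finset.sum_add_distrib,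
            ← Finset.sum_add_distrib]
          refine Finset.sum_congr rfl fun i _ => ?_
          ring
        rw [e]
        refine mul_nonneg (hp t) ?_
        rw [Complex.zero_le_real, sub_nonneg]
        refine (Complex.re_le_norm _).trans ?_
        rw [norm_mul, hθ, E_norm]; simp)
    simp only [Fintype.sum_sum_type, Sum.elim_inl, Sum.elim_inr, mul_assoc, ← Finset.mul_sum] at this
    convert this using 1
    simp only [X, Y, Z]
    ring
  have hY : Y = conj X := by
    have a1 := (Complex.le_def.1 (key 1 (by simp))).2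
    have a2 := (Complex.le_def.1 (key Complex.I (by simp))).2
    have a3 := (Complex.le_def.1 hZ).2
    simp at a1 a2 a3
    apply Complex.ext <;> simp <;> linarith
  refine ⟨?_, hY⟩
  obtain ⟨θ, hθ, hθX⟩ := Complex.exists_norm_eq_mul_self X
  have a1 := (Complex.le_def.1 (key θ hθ)).1
  have e : Z - θ / 2 * X - conj θ / 2 * Y = Z - ‖X‖ := by
    have : conj θ * Y = ‖X‖ := by
      rw [hY, ← map_mul, ← hθX, Complex.conj_ofReal]
    linear_combination (-1 / 2 : ℂ) * this + (1 / 2 : ℂ) * hθX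
  rw [e] at a1
  simpa using a1

lemma pf_add {D : Set ℝ} {F G : ℝ → ℂ} (hF : PF D F) (hG : PF D G) : PF D (fun x => F x + G x) := by
  intro ι _ c l hl hp
  simp only [mul_add, Finset.sum_add_distrib]
  exact add_nonneg (hF ι c l hl hp) (hG ι c l hl hp)

lemma pd_of {A : EReal} (hA : 0 < A) {h : ℝ → ℂ} (hF : PF (Dom A) h) :
    PD (Dom A) h (h 0).re ∧ 0 ≤ (h 0).re := by
  have h1 : ∀ x ∈ Dom A, ‖h x‖ ≤ (h 0).re ∧ h (-x) = conj (h x) := by
    intro x hx
    have := L1 hF (ι := Unit) (fun _ => 1) (fun _ => 0) x (fun _ => dom_zero hA)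
      (fun _ => by simpa using hx) (fun _ => by simpa using dom_neg hx) (by simp [E_zero])
    simpa using this
  have h0 : 0 ≤ h 0 := by
    have := hF Unit (fun _ => 1) (fun _ => 0) (fun _ => dom_zero hA) (by simp [E_zero])
    simpa using this
  refine ⟨⟨?_, fun x hx => dom_neg hx, fun x hx => (h1 x hx).2, fun x hx => (h1 x hx).1, ?_⟩,
    (Complex.le_def.1 h0).1⟩
  · intro ι _ c t ht
    have := hF (ι × ι) (fun p => c p.1 * conj (c p.2)) (fun p => t p.1 - t p.2)
      (fun p => ht p.1 p.2) (by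
        intro s
        have e : ∑ p : ι × ι, c p.1 * conj (c p.2) * E (t p.1 - t p.2) s
            = (∑ i, c i * E (t i) s) * conj (∑ i, c i * E (t i) s) := by
          rw [Fintype.sum_prod_type, map_sum, Finset.sum_mul_sum]
          refine Finset.sum_congr rfl fun i _ => Finset.sum_congr rfl fun j _ => ?_
          rw [sub_eq_add_neg, E_add, E_neg, map_mul]
          ring
        rw [e, Complex.mul_conj]
        exact Complex.zero_le_real.2 (Complex.normSq_nonneg _))
    rw [Fintype.sum_prod_type] at this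
    exact (Complex.le_def.1 this).1
  · apply Complex.ext
    · simp
    · simpa using (Complex.le_def.1 h0).2.symm

lemma real_poly {A : EReal} {f : ℝ → ℂ} (hH : Hermitian A f) {ε : ℝ} (hε : 0 < ε) :
    ∃ (ι : Type) (_ : Fintype ι) (c : ι → ℂ) (l : ι → ℝ), (∀ i, l i ∈ Dom A) ∧
      (∀ t, ∃ r : ℝ, |r| ≤ 1 ∧ ∑ i, c i * E (l i) t = r) ∧
      normA A f - ε < (∑ i, c i * f (l i)).re := by
  obtain ⟨r, ⟨p, hp, hp1, rfl⟩, hr⟩ := exists_lt_of_lt_csSup
    (show (vals A f).Nonempty from ⟨_, 0, by simp [IsAP], by simp [ev], rfl⟩)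
    (show normA A f - ε < sSup (vals A f) by unfold normA; linarith)
  obtain ⟨θ, hθ, hθX⟩ := Complex.exists_norm_eq_mul_self (Phi f p)
  have hs : ∀ F : ℝ → ℂ, ∑ i : p.support, p i * F i = p.sum fun a b => b * F a := by
    intro F
    rw [Finsupp.sum, Finset.sum_coe_sort p.support (fun a => p a * F a)]
  have hsum : ∀ F : ℝ → ℂ, (∀ a ∈ Dom A, F (-a) = conj (F a)) →
      ∑ i : p.support ⊕ p.support,
      (Sum.elim (fun i : p.support => θ / 2 * p i) (fun i : p.support => conj (θ / 2 * p i)) i : ℂ) *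
        F (Sum.elim (fun i : p.support => (i : ℝ)) (fun i : p.support => -(i : ℝ)) i)
      = ((θ * p.sum fun a b => b * F a).re : ℝ) := by
    intro F hF
    rw [Fintype.sum_sum_type, Complex.re_eq_add_conj, ← hs, Finset.mul_sum, map_sum,
      ← Finset.sum_add_distrib, ← Finset.sum_add_distrib, Finset.sum_div]
    refine Finset.sum_congr rfl fun i _ => ?_
    simp only [Sum.elim_inl, Sum.elim_inr, hF _ (hp _ i.2), map_mul, map_div₀, Complex.conj_ofNat]
    ring
  refine ⟨p.support ⊕ p.support, inferInstance,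
    Sum.elim (fun i => θ / 2 * p i) (fun i => conj (θ / 2 * p i)),
    Sum.elim (fun i => (i : ℝ)) (fun i => -(i : ℝ)), ?_, ?_, ?_⟩
  · rintro (i | i)
    · exact hp _ i.2
    · exact dom_neg (hp _ i.2)
  · intro t
    refine ⟨_, ?_, hsum (fun a => E a t) (fun a _ => E_neg a t)⟩
    refine (Complex.abs_re_le_norm _).trans ?_
    rw [norm_mul, hθ, one_mul]
    exact hp1 t
  · rw [hsum f hH, Complex.ofReal_re]
    change _ < (θ * Phi f p).re
    rw [← hθX, Complex.ofReal_re]
    exact hr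

theorem result (A : EReal) (hA : 0 < A) (f fp fm : ℝ → ℂ)
    (_hfR : InR A f) (hfH : Hermitian A f) (hfm : Meas A f)
    (hp : InP A fp) (hm : InP A fm) (hdec : ∀ l ∈ Dom A, f l = fp l - fm l)
    (hmin : (normA A f : ℂ) = fp 0 + fm 0) :
    Meas A fp ∧ Meas A fm := by
  have Pp := pf_of hp
  have Pm := pf_of hm
  obtain ⟨P, hH⟩ := pd_of hA (pf_add Pp Pm)
  have hDm : MeasurableSet (Dom A) := (dom_open A).measurableSet
  obtain ⟨f', hf'm, hf'⟩ := hfm
  have hf'' : ∀ᵐ x, x ∈ Dom A → f x = f' x := (ae_restrict_iff' hDm).1 hf'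
  have hh : AEMeasurable (fun x => fp x + fm x) (volume.restrict (Dom A)) := by
    refine aemeas hDm P hH fun ε hε => ?_
    obtain ⟨ι, _, c, l, hl, hr, hn⟩ := real_poly hfH hε
    have hev : ∀ᶠ x in 𝓝 (0 : ℝ), x ∈ Dom A ∧ ∀ i, l i + x ∈ Dom A := by
      refine Filter.Eventually.and ((dom_open A).mem_nhds (dom_zero hA)) ?_
      rw [eventually_all]
      intro i
      have : ContinuousAt (fun x : ℝ => l i + x) 0 := by fun_prop
      exact this.eventually_mem ((dom_open A).mem_nhds (by simpa using hl i))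
    obtain ⟨δ, hδ, hb⟩ := Metric.eventually_nhds_iff.1 hev
    have hb' : ∀ x, |x| < δ → x ∈ Dom A ∧ ∀ i, l i + x ∈ Dom A := fun x hx =>
      hb (by simpa [Real.dist_eq] using hx)
    refine ⟨δ, hδ, fun x hx => (hb' x hx).1, fun x => ∑ i, c i * f' (l i + x), ?_, ?_⟩
    · refine Finset.measurable_sum _ fun i _ => ?_
      exact (hf'm.comp (measurable_const.add measurable_id)).const_mul _
    · have hsh : ∀ᵐ x, ∀ i, (l i + x ∈ Dom A → f (l i + x) = f' (l i + x)) := by
        rw [ae_all_iff]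
        intro i
        exact (measurePreserving_add_left volume (l i)).quasiMeasurePreserving.ae hf''
      filter_upwards [hsh] with x hx hxδ
      have d1 := hb' x hxδ
      have d2 := hb' (-x) (by simpa using hxδ)
      have main : ∀ (s : ℝ) (F : ℝ → ℂ), |s| = 1 → PF (Dom A) F →
          ‖F x + s * ∑ i, c i * F (l i + x)‖ ≤ (F 0 + s * ∑ i, c i * F (l i)).re := by
        intro s F hs hF
        have := (L1 hF (ι := Unit ⊕ ι) (Sum.elim (fun _ => 1) (fun i => s * c i))
          (Sum.elim (fun _ => 0) l) x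
          (by rintro (i | i); exacts [dom_zero hA, hl i])
          (by rintro (i | i); exacts [by simpa using d1.1, d1.2 i])
          (by rintro (i | i); exacts [by simpa using d2.1, d2.2 i]) (by
            intro t
            obtain ⟨r, hr1, hr2⟩ := hr t
            simp only [Fintype.sum_sum_type, Sum.elim_inl, Sum.elim_inr, mul_assoc,
              ← Finset.mul_sum, hr2, E_zero]
            have : 0 ≤ 1 + s * r := by
              have h3 : |s * r| ≤ 1 := by rw [abs_mul, hs, one_mul]; exact hr1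
              linarith [(abs_le.1 h3).1]
            have h4 := Complex.zero_le_real.2 this
            simpa using h4)).1
        simpa [Fintype.sum_sum_type, mul_assoc, ← Finset.mul_sum] using this
      have m1 := main (-1) fp (by simp) Pp
      have m2 := main 1 fm (by simp) Pm
      have e1 : ∑ i, c i * f' (l i + x)
          = ∑ i, c i * fp (l i + x) - ∑ i, c i * fm (l i + x) := by
        rw [← Finset.sum_sub_distrib]
        refine Finset.sum_congr rfl fun i _ => ?_
        rw [← hx i (d1.2 i), hdec _ (d1.2 i)]; ring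
      have e2 : ∑ i, c i * f (l i) = ∑ i, c i * fp (l i) - ∑ i, c i * fm (l i) := by
        rw [← Finset.sum_sub_distrib]
        refine Finset.sum_congr rfl fun i _ => ?_
        rw [hdec _ (hl i)]; ring
      have e3 : fp x + fm x - ∑ i, c i * f' (l i + x)
          = (fp x + ((-1 : ℝ) : ℂ) * ∑ i, c i * fp (l i + x))
            + (fm x + ((1 : ℝ) : ℂ) * ∑ i, c i * fm (l i + x)) := by
        rw [e1]; push_cast; ring
      rw [e3]
      refine (norm_add_le _ _).trans ?_
      have e4 := congrArg Complex.re hmin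
      rw [e2] at hn
      simp only [Complex.ofReal_re, Complex.add_re, Complex.sub_re, Complex.re_ofReal_mul] at *
      linarith
  have hf : AEMeasurable f (volume.restrict (Dom A)) := ⟨f', hf'm, hf'⟩
  constructor
  · refine ((hh.add hf).div_const 2).congr ?_
    filter_upwards [ae_restrict_mem hDm] with x hx
    simp only [Pi.add_apply, hdec x hx]; ring
  · refine ((hh.sub hf).div_const 2).congr ?_
    filter_upwards [ae_restrict_mem hDm] with x hx
    simp only [Pi.sub_apply, hdec x hx]; ring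

end Pool.Agent.Results.MP_a2f955_an.Measurable
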